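import Mathlib

/-!
# Morse boundaries of groups, limit sets, hyperbolically embedded subgroups

Definitions for MP_1d7d98_al. Geodesics and quasi-geodesics of the Cayley graph of a group `G`
with respect to a generating set `S` are described by the sequences of their vertices.
-/

set_option autoImplicit false

namespace Pool.Agent.helper99.MB

open Filter

variable {G : Type} [Group G]

/-- word length with respect to `S` -/
noncomputable def wlen (S : Set G) (g : G) : ℕ :=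
  sInf {n | ∃ l : List G, l.length = n ∧ (∀ x ∈ l, x ∈ S ∨ x⁻¹ ∈ S) ∧ l.prod = g}

/-- word metric -/
noncomputable def wd (S : Set G) (g h : G) : ℕ := wlen S (g⁻¹ * h)

/-- Morse gauges; only the values at `(lam, eps)` with `lam ≥ 1`, `eps ≥ 0` matter -/
abbrev Gauge : Type := ℝ → ℝ → NNReal

/-- the vertices `γ 0, ..., γ n` are those of a geodesic of the Cayley graph -/
def IsGeod (S : Set G) (n : ℕ) (γ : ℕ → G) : Prop :=
  ∀ i j, i ≤ j → j ≤ n → wd S (γ i) (γ j) = j - i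

/-- the vertices `γ 0 = 1, γ 1, γ 2, ...` are those of a geodesic ray of the Cayley graph -/
def IsRay (S : Set G) (γ : ℕ → G) : Prop :=
  γ 0 = 1 ∧ ∀ i j, i ≤ j → wd S (γ i) (γ j) = j - i

/-- `q 0, ..., q m` is a `(lam, eps)`-quasi-geodesic -/
def IsQG (S : Set G) (lam eps : ℝ) (m : ℕ) (q : ℕ → G) : Prop :=
  ∀ i j, i ≤ j → j ≤ m →
    ((j : ℝ) - i) / lam - eps ≤ wd S (q i) (q j) ∧ (wd S (q i) (q j) : ℝ) ≤ lam * ((j : ℝ) - i) + eps

/-- The geodesic with the vertices `γ i`, `i ∈ I`, is `N`-Morse: every `(lam, eps)`-quasi-geodesic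
with end points on it stays in its `N lam eps`-neighbourhood. -/
def MorseOn (S : Set G) (N : Gauge) (I : Set ℕ) (γ : ℕ → G) : Prop :=
  ∀ lam eps : ℝ, 1 ≤ lam → 0 ≤ eps → ∀ (m : ℕ) (q : ℕ → G), IsQG S lam eps m q →
    (∃ i ∈ I, q 0 = γ i) → (∃ j ∈ I, q m = γ j) →
      ∀ k ≤ m, ∃ i ∈ I, (wd S (q k) (γ i) : ℝ) ≤ N lam eps

/-- the `N`-Morse geodesic rays starting at `1` -/
def IsMorseRay (S : Set G) (N : Gauge) (γ : ℕ → G) : Prop :=
  IsRay S γ ∧ MorseOn S N Set.univ γ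

/-- the type of Morse geodesic rays starting at `1` -/
def MRay (S : Set G) : Type := {γ : ℕ → G // ∃ N, IsMorseRay S N γ}

/-- finite Hausdorff distance -/
def HausClose (S : Set G) (γ γ' : ℕ → G) : Prop :=
  ∃ D : ℕ, (∀ i, ∃ j, wd S (γ i) (γ' j) ≤ D) ∧ (∀ j, ∃ i, wd S (γ i) (γ' j) ≤ D)

/-- the Morse boundary as a set: Morse geodesic rays modulo finite Hausdorff distance -/
def MBdry (S : Set G) : Type := Quot (fun γ γ' : MRay S => HausClose S γ.1 γ'.1)

/-- the class of a Morse ray -/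
def MBdry.mk (S : Set G) (γ : ℕ → G) (h : ∃ N, IsMorseRay S N γ) : MBdry S :=
  Quot.mk _ ⟨γ, h⟩

/-- The direct limit topology: `U` is open iff for every Morse gauge `N` the set of `N`-Morse rays
with class in `U` is open in the space of `N`-Morse rays with the topology of uniform convergence
on compact sets: if the class of the `N`-Morse ray `γ` is in `U`, then for some `n` the
class of each `N`-Morse ray `γ'` which agrees with `γ` up to time `n` is in `U`. -/
instance (S : Set G) : TopologicalSpace (MBdry S) where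
  IsOpen U := ∀ (N : Gauge) (γ : ℕ → G) (h : IsMorseRay S N γ), MBdry.mk S γ ⟨N, h⟩ ∈ U →
    ∃ n : ℕ, ∀ (γ' : ℕ → G) (h' : IsMorseRay S N γ'), (∀ i ≤ n, γ' i = γ i) →
      MBdry.mk S γ' ⟨N, h'⟩ ∈ U
  isOpen_univ := fun _ _ _ _ => ⟨0, fun _ _ _ => trivial⟩
  isOpen_inter := by
    intro U V hU hV N γ h hγ
    obtain ⟨m, hm⟩ := hU N γ h hγ.1
    obtain ⟨n, hn⟩ := hV N γ h hγ.2
    exact ⟨max m n, fun γ' h' hc =>
      ⟨hm γ' h' fun i hi => hc i (hi.trans (le_max_left _ _)),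
        hn γ' h' fun i hi => hc i (hi.trans (le_max_right _ _))⟩⟩
  isOpen_sUnion := by
    intro 𝒰 h𝒰 N γ h hγ
    obtain ⟨U, hU, hγU⟩ := hγ
    obtain ⟨n, hn⟩ := h𝒰 U hU N γ h hγU
    exact ⟨n, fun γ' h' hc => ⟨U, hU, hn γ' h' hc⟩⟩

/-- The limit set of the subgroup `H` in the Morse boundary of `G`: the classes of the `N`-Morse
rays `γ` which are limits, uniformly on compact sets, of `N`-Morse geodesics `σ n` from `1` to
elements `h n` of `H`. -/
def limitSet (S : Set G) (H : Subgroup G) : Set (MBdry S) :=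
  {ξ | ∃ (N : Gauge) (h : ℕ → G) (σ : ℕ → ℕ → G) (γ : ℕ → G) (hγ : IsMorseRay S N γ),
    (∀ n, h n ∈ H) ∧
    (∀ n, σ n 0 = 1 ∧ σ n (wlen S (h n)) = h n ∧ IsGeod S (wlen S (h n)) (σ n) ∧
      MorseOn S N {i | i ≤ wlen S (h n)} (σ n)) ∧
    (∀ i, ∀ᶠ n in atTop, i ≤ wlen S (h n) ∧ σ n i = γ i) ∧ MBdry.mk S γ ⟨N, hγ⟩ = ξ}

/-- almost malnormal subgroups -/
def AlmostMalnormal (H : Subgroup G) : Prop :=
  ∀ g ∉ H, {h : G | h ∈ H ∧ g⁻¹ * h * g ∈ H}.Finite

/-- `RelPath X H n g g'`: in the Cayley graph `Γ(G, X ⊔ H)` there is a path of length at most `n`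
from `g` to `g'` which contains no edge of the complete subgraph on `H` labelled by
elements of `H`. -/
inductive RelPath (X : Set G) (H : Subgroup G) : ℕ → G → G → Prop
  | refl (n : ℕ) (g : G) : RelPath X H n g g
  | edge (n : ℕ) (g g' x : G) (h : RelPath X H n g g') (hx : x ∈ X ∨ x⁻¹ ∈ X) :
      RelPath X H (n + 1) g (g' * x)
  | sub (n : ℕ) (g g' k : G) (h : RelPath X H n g g') (hk : k ∈ H) (hg : g' ∉ H) :
      RelPath X H (n + 1) g (g' * k)

/-- Hyperbolically embedded subgroups (Dahmani, Guirardel, Osin): there is `X ⊆ G` such that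
`X ∪ H` generates `G`, the Cayley graph `Γ(G, X ⊔ H)` is hyperbolic (Gromov's four point
condition for its vertices) and all balls of finite radius of the relative metric on `H` are
finite. -/
def HypEmbedded (H : Subgroup G) : Prop :=
  ∃ X : Set G, Subgroup.closure (X ∪ (H : Set G)) = ⊤ ∧
    (∃ δ : ℝ, ∀ x y z w : G, (wd (X ∪ (H : Set G)) x y : ℝ) + wd (X ∪ (H : Set G)) z w ≤
      max ((wd (X ∪ (H : Set G)) x z : ℝ) + wd (X ∪ (H : Set G)) y w)
        ((wd (X ∪ (H : Set G)) x w : ℝ) + wd (X ∪ (H : Set G)) y z) + δ) ∧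
    ∀ h ∈ H, ∀ n : ℕ, {k : G | k ∈ H ∧ RelPath X H n h k}.Finite

/-- The target statement (negated form of Q1 of MP_1d7d98_al). -/
def Target : Prop :=
  ∃ (G : Type) (_ : Group G) (H : Subgroup G) (S : Set G) (T : Set H),
    S.Finite ∧ Subgroup.closure S = ⊤ ∧ T.Finite ∧ Subgroup.closure T = ⊤ ∧
    AlmostMalnormal H ∧ Nonempty (MBdry T) ∧
    (∃ f : MBdry T ≃ₜ limitSet S H, ∀ (γ : ℕ → H) (hγ : ∃ N, IsMorseRay T N γ),
      ∃ hγ' : ∃ N, IsMorseRay S N (fun i => (γ i : G)),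
        (f (MBdry.mk T γ hγ) : MBdry S) = MBdry.mk S (fun i => (γ i : G)) hγ') ∧
    ¬ HypEmbedded H

end Pool.Agent.helper99.MB
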