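import Mathlib
import Pool.Agent.helper99.MB.Defs

/-!
# Word metrics
-/

set_option autoImplicit false

namespace Pool.Agent.helper99.MB

variable {G : Type} [Group G]

/-- letters -/
def Let (S : Set G) (x : G) : Prop := x ∈ S ∨ x⁻¹ ∈ S

theorem Let.inv {S : Set G} {x : G} (h : Let S x) : Let S x⁻¹ := by
  rcases h with h | h
  · exact Or.inr (by rwa [inv_inv])
  · exact Or.inl h

theorem wlen_le {S : Set G} (l : List G) (h : ∀ x ∈ l, Let S x) : wlen S l.prod ≤ l.length :=
  Nat.sInf_le ⟨l, rfl, h, rfl⟩

theorem exists_word {S : Set G} (hS : Subgroup.closure S = ⊤) (g : G) :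
    ∃ l : List G, (∀ x ∈ l, Let S x) ∧ l.prod = g := by
  have hg : g ∈ Submonoid.closure (S ∪ S⁻¹) := by
    rw [← Subgroup.closure_toSubmonoid, hS]; trivial
  obtain ⟨l, h1, h2⟩ := Submonoid.exists_list_of_mem_closure hg
  exact ⟨l, fun x hx => (h1 x hx).imp id (by simp), h2⟩

theorem wlen_spec {S : Set G} (hS : Subgroup.closure S = ⊤) (g : G) :
    ∃ l : List G, l.length = wlen S g ∧ (∀ x ∈ l, Let S x) ∧ l.prod = g := by
  have : {n | ∃ l : List G, l.length = n ∧ (∀ x ∈ l, x ∈ S ∨ x⁻¹ ∈ S) ∧ l.prod = g}.Nonempty := by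
    obtain ⟨l, h1, h2⟩ := exists_word hS g
    exact ⟨l.length, l, rfl, h1, h2⟩
  exact Nat.sInf_mem this

theorem wlen_one (S : Set G) : wlen S (1 : G) = 0 := by
  have := wlen_le (S := S) [] (by simp)
  simpa using this

theorem wlen_mul_le {S : Set G} (hS : Subgroup.closure S = ⊤) (g h : G) :
    wlen S (g * h) ≤ wlen S g + wlen S h := by
  obtain ⟨l, h1, h2, h3⟩ := wlen_spec hS g
  obtain ⟨l', h1', h2', h3'⟩ := wlen_spec hS h
  have := wlen_le (S := S) (l ++ l') (by
    intro x hx
    rcases List.mem_append.mp hx with h | h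
    · exact h2 x h
    · exact h2' x h)
  rw [List.prod_append, List.length_append, h3, h3', h1, h1'] at this
  exact this

theorem wlen_inv_le {S : Set G} (hS : Subgroup.closure S = ⊤) (g : G) :
    wlen S g⁻¹ ≤ wlen S g := by
  obtain ⟨l, h1, h2, h3⟩ := wlen_spec hS g
  have := wlen_le (S := S) (l.map (fun x => x⁻¹)).reverse (by
    intro x hx
    simp only [List.mem_reverse, List.mem_map] at hx
    obtain ⟨y, hy, rfl⟩ := hx
    exact (h2 y hy).inv)
  rw [← List.prod_inv_reverse, h3, List.length_reverse, List.length_map, h1] at this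
  exact this

theorem wlen_inv {S : Set G} (hS : Subgroup.closure S = ⊤) (g : G) :
    wlen S g⁻¹ = wlen S g := by
  refine le_antisymm (wlen_inv_le hS g) ?_
  have := wlen_inv_le hS g⁻¹
  rwa [inv_inv] at this

theorem wlen_let {S : Set G} {x : G} (h : Let S x) : wlen S x ≤ 1 := by
  have := wlen_le (S := S) [x] (by simpa using h)
  simpa using this

theorem eq_one_of_wlen {S : Set G} (hS : Subgroup.closure S = ⊤) {g : G} (h : wlen S g = 0) :
    g = 1 := by
  obtain ⟨l, h1, h2, h3⟩ := wlen_spec hS g
  rw [h] at h1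
  rw [List.length_eq_zero_iff] at h1
  rw [← h3, h1, List.prod_nil]

theorem let_of_wlen {S : Set G} (hS : Subgroup.closure S = ⊤) {g : G} (h : wlen S g = 1) :
    Let S g := by
  obtain ⟨l, h1, h2, h3⟩ := wlen_spec hS g
  rw [h, List.length_eq_one_iff] at h1
  obtain ⟨a, rfl⟩ := h1
  rw [List.prod_singleton] at h3
  rw [← h3]
  exact h2 a (by simp)

theorem wd_self (S : Set G) (g : G) : wd S g g = 0 := by
  unfold wd; rw [inv_mul_cancel, wlen_one]

theorem wd_comm {S : Set G} (hS : Subgroup.closure S = ⊤) (g h : G) : wd S g h = wd S h g := by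
  unfold wd
  rw [← wlen_inv hS]
  simp

theorem wd_tri {S : Set G} (hS : Subgroup.closure S = ⊤) (g h k : G) :
    wd S g k ≤ wd S g h + wd S h k := by
  unfold wd
  have := wlen_mul_le hS (g⁻¹ * h) (h⁻¹ * k)
  simpa [mul_assoc] using this

theorem wd_left (S : Set G) (x g h : G) : wd S (x * g) (x * h) = wd S g h := by
  unfold wd; simp [mul_assoc]

theorem eq_of_wd {S : Set G} (hS : Subgroup.closure S = ⊤) {g h : G} (h0 : wd S g h = 0) :
    g = h := by
  have := eq_one_of_wlen hS h0
  exact inv_mul_eq_one.mp this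

theorem wd_let {S : Set G} (g : G) {x : G} (h : Let S x) : wd S g (g * x) ≤ 1 := by
  unfold wd
  rw [inv_mul_cancel_left]
  exact wlen_let h

theorem wd_one_left (S : Set G) (g : G) : wd S 1 g = wlen S g := by
  unfold wd; simp

/-- homomorphisms sending letters to letters or `1` do not increase the length -/
theorem wlen_map {G' : Type} [Group G'] {S : Set G} (hS : Subgroup.closure S = ⊤) {S' : Set G'}
    (hS' : Subgroup.closure S' = ⊤) (φ : G →* G') (h : ∀ s ∈ S, Let S' (φ s) ∨ φ s = 1) (g : G) :
    wlen S' (φ g) ≤ wlen S g := by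
  obtain ⟨l, h1, h2, h3⟩ := wlen_spec hS g
  rw [← h1, ← h3]
  clear h1 h3
  induction l with
  | nil => simp [wlen_one]
  | cons x l ih =>
    rw [List.prod_cons, map_mul, List.length_cons]
    have hx : wlen S' (φ x) ≤ 1 := by
      have key : ∀ s ∈ S, wlen S' (φ s) ≤ 1 := by
        intro s hs
        rcases h s hs with h | h
        · exact wlen_let h
        · rw [h, wlen_one]; omega
      rcases h2 x (by simp) with h | h
      · exact key x h
      · have := key _ h
        rw [map_inv, wlen_inv hS'] at this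
        exact this
    have := wlen_mul_le hS' (φ x) (φ l.prod)
    have := ih fun x hx => h2 x (by simp [hx])
    omega

/-- geodesics exist -/
theorem exists_geod {S : Set G} (hS : Subgroup.closure S = ⊤) (g h : G) :
    ∃ γ : ℕ → G, γ 0 = g ∧ γ (wd S g h) = h ∧ IsGeod S (wd S g h) γ := by
  obtain ⟨l, h1, h2, h3⟩ := wlen_spec hS (g⁻¹ * h)
  have hn : wd S g h = l.length := h1.symm
  have key : ∀ i j, i ≤ j → j ≤ l.length →
      wd S (g * (l.take i).prod) (g * (l.take j).prod) ≤ j - i := by
    intro i j hij hj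
    rw [wd_left]
    have e : (l.take i).prod⁻¹ * (l.take j).prod = ((l.take j).drop i).prod := by
      have := List.prod_take_mul_prod_drop (l.take j) i
      rw [List.take_take, min_eq_left hij] at this
      rw [← this, inv_mul_cancel_left]
    unfold wd
    rw [e]
    refine (wlen_le _ fun x hx => h2 x ?_).trans ?_
    · exact List.mem_of_mem_take (List.mem_of_mem_drop hx)
    · simp; omega
  refine ⟨fun i => g * (l.take i).prod, by simp, ?_, ?_⟩
  · rw [hn]; simp only [List.take_length]; rw [h3]; simp
  · intro i j hij hj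
    rw [hn] at hj
    refine le_antisymm (key i j hij hj) ?_
    have k1 := key 0 i (by omega) (by omega)
    have k2 := key i j hij hj
    have k3 := key j l.length (by omega) le_rfl
    simp only [List.take_zero, List.prod_nil, mul_one, List.take_length] at k1 k3
    have t1 := wd_tri hS g (g * (l.take i).prod) (g * l.prod)
    have t2 := wd_tri hS (g * (l.take i).prod) (g * (l.take j).prod) (g * l.prod)
    have e : g * l.prod = h := by rw [h3]; simp
    rw [e] at t1 t2 k3
    show j - i ≤ wd S (g * (l.take i).prod) (g * (l.take j).prod)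
    omega

end Pool.Agent.helper99.MB
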