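import Mathlib
import Pool.Agent.helper99.MB.Word
import Pool.Agent.helper99.LC.FreeProd

/-!
# The ambient group `Γ = W * ⟨c⟩` and its subgroup `H = Q * ⟨c⟩`
-/

set_option autoImplicit false

namespace Pool.Agent.helper99.MB

open Pool.Agent.helper99.LC

/-- The group `W = ℤ[1/6] ⋊ ⟨2, 3⟩` with `Q = ⟨2, 3⟩ ≅ ℤ ^ 2`. -/
structure Base (W : Type) [Group W] where
  Q : Subgroup W
  a : W
  b : W
  x : W
  ha : a ∈ Q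
  hb : b ∈ Q
  hx : x ∉ Q
  gen : Subgroup.closure {a, b, x} = (⊤ : Subgroup W)
  /-- retraction onto `Q` -/
  ρ : W →* W
  ρ_mem : ∀ w, ρ w ∈ Q
  ρ_id : ∀ q ∈ Q, ρ q = q
  ρ_x : ρ x = 1
  p1 : W → ℤ
  p2 : W → ℤ
  p1_mul : ∀ g h, p1 (g * h) = p1 g + p1 h
  p2_mul : ∀ g h, p2 (g * h) = p2 g + p2 h
  p1_a : p1 a = 1
  p2_a : p2 a = 0
  p1_b : p1 b = 0
  p2_b : p2 b = 1
  p1_x : p1 x = 0
  p2_x : p2 x = 0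
  q_eq : ∀ q ∈ Q, q = a ^ (p1 q) * b ^ (p2 q)
  comm : a * b = b * a
  malnormal : ∀ w ∉ Q, ∀ q ∈ Q, w⁻¹ * q * w ∈ Q → q = 1
  x_comm : ∀ n : ℤ, x * (a ^ n * x * (a ^ n)⁻¹) = (a ^ n * x * (a ^ n)⁻¹) * x
  x_not : ∀ n : ℤ, x * (a ^ n * x * (a ^ n)⁻¹) ∉ Q

/-- The ambient group. -/
structure Amb (W Γ : Type) [Group W] [Group Γ] where
  F : FProd W Γ
  B : Base W
  gen : Subgroup.closure (Set.range F.ι ∪ {F.c}) = ⊤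
  /-- retraction onto `H` -/
  r : Γ →* Γ
  r_ι : ∀ w, r (F.ι w) = F.ι (B.ρ w)
  r_c : r F.c = F.c
  p1 : Γ → ℤ
  p2 : Γ → ℤ
  p1_mul : ∀ g h, p1 (g * h) = p1 g + p1 h
  p2_mul : ∀ g h, p2 (g * h) = p2 g + p2 h
  p1_ι : ∀ w, p1 (F.ι w) = B.p1 w
  p2_ι : ∀ w, p2 (F.ι w) = B.p2 w
  p1_c : p1 F.c = 0
  p2_c : p2 F.c = 0

namespace Amb

variable {W Γ : Type} [Group W] [Group Γ] (X : Amb W Γ)

/-- the subgroup `H = ⟨Q, c⟩` -/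
abbrev H : Subgroup Γ := X.F.P X.B.Q

/-- generators of `Γ` -/
def S : Set Γ := {X.F.ι X.B.a, X.F.ι X.B.b, X.F.ι X.B.x, X.F.c}

theorem a_mem : X.F.ι X.B.a ∈ X.H := X.F.ι_mem_P X.B.ha

theorem b_mem : X.F.ι X.B.b ∈ X.H := X.F.ι_mem_P X.B.hb

theorem c_mem : X.F.c ∈ X.H := X.F.c_mem_P X.B.Q

/-- generators of `H` -/
def T : Set X.H := {⟨X.F.ι X.B.a, X.a_mem⟩, ⟨X.F.ι X.B.b, X.b_mem⟩, ⟨X.F.c, X.c_mem⟩}

/-- `{g, g'}` is an edge labelled by `c` -/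
def IsC (g g' : Γ) : Prop := g' = g * X.F.c ∨ g = g' * X.F.c

/-- no long pieces without `c`-edges -/
def Tight (K : ℕ) (I : Set ℕ) (γ : ℕ → Γ) : Prop :=
  ∀ t, t + K + 1 ∈ I → ∃ i, t ≤ i ∧ i ≤ t + K ∧ X.IsC (γ i) (γ (i + 1))

end Amb

/-- geodesic on an initial segment of `ℕ` -/
def GeodOn {G : Type} [Group G] (S : Set G) (I : Set ℕ) (γ : ℕ → G) : Prop :=
  ∀ i j, i ≤ j → j ∈ I → wd S (γ i) (γ j) = j - i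

end Pool.Agent.helper99.MB
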